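import Pool.Agent.Helper36_PP.StmtsCY
import Pool.Agent.Helper20_PP.Ibr

/-!
# Squad PP, part CY, module EBR: class functions act on `V^P / nrm V` through the Brauer map
-/

open scoped BigOperators

noncomputable section

namespace Pool.Agent.PP.CY.H5

open Pool.Agent.PP Pool.Agent.Helper51_AWC Pool.Agent.Helper79_WRA

section grp

variable {G : Type} [Group G]

/-- an element of order prime to `ℓ` which normalises the cyclic `ℓ`-group generated by `y` and
commutes with a nontrivial power of `y` commutes with `y` -/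
theorem comm_of_coprime {ℓ : ℕ} (hℓ : ℓ.Prime) {y h : G} {e : ℕ} (hy : orderOf y = ℓ ^ e)
    {a : ℤ} (ha : h * y * h⁻¹ = y ^ a) {i : ℤ} (hi : y ^ i ≠ 1) (hc : h * y ^ i * h⁻¹ = y ^ i)
    (hh : ℓ.Coprime (orderOf h)) : Commute h y := by
  have h1 : ∀ j : ℕ, h ^ j * y * (h ^ j)⁻¹ = y ^ (a ^ j) := by
    intro j
    induction j with
    | zero => simp
    | succ j ih =>
      have h2 : h ^ (j + 1) * y * (h ^ (j + 1))⁻¹ = h * (h ^ j * y * (h ^ j)⁻¹) * h⁻¹ := by
        rw [pow_succ']
        group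
      rw [h2, ih, ← conj_zpow, ha, ← zpow_mul, pow_succ']
  have h3 : y ^ (a * i) = y ^ i := by
    rw [zpow_mul, ← ha, conj_zpow, hc]
  have h4 : ((ℓ ^ e : ℕ) : ℤ) ∣ i * (a - 1) := by
    rw [← hy]
    have h5 := (orderOf_dvd_sub_iff_zpow_eq_zpow (x := y) (a := a * i) (b := i)).2 h3
    have h6 : a * i - i = i * (a - 1) := by ring
    rwa [h6] at h5
  have h7 : (ℓ : ℤ) ∣ a - 1 := by
    by_contra hn
    apply hi
    apply orderOf_dvd_iff_zpow_eq_one.1
    rw [hy]
    have hp : Prime (ℓ : ℤ) := Nat.prime_iff_prime_int.1 hℓ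
    have h8 : IsCoprime ((ℓ : ℤ) ^ e) (a - 1) := (hp.coprime_iff_not_dvd.2 hn).pow_left
    push_cast at h4 ⊢
    exact h8.dvd_of_dvd_mul_right h4
  have h9 : ((ℓ : ℤ) ^ (e + 1)) ∣ a ^ ℓ ^ e - 1 ^ ℓ ^ e := dvd_sub_pow_of_dvd_sub h7 e
  have h10 : y ^ (a ^ ℓ ^ e) = y := by
    have h11 : (orderOf y : ℤ) ∣ a ^ ℓ ^ e - 1 := by
      rw [hy]
      rw [one_pow] at h9
      push_cast
      exact (pow_dvd_pow (ℓ : ℤ) (Nat.le_succ e)).trans h9
    have h12 := (orderOf_dvd_sub_iff_zpow_eq_zpow (x := y) (a := a ^ ℓ ^ e) (b := 1)).1 h11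
    rwa [zpow_one] at h12
  have h13 : Commute (h ^ ℓ ^ e) y := by
    have h14 := h1 (ℓ ^ e)
    rw [h10] at h14
    exact mul_inv_eq_iff_eq_mul.1 h14
  obtain ⟨m, hm⟩ := exists_pow_eq_self_of_coprime (x := h) (n := ℓ ^ e) (hh.pow_left e)
  rw [← hm]
  exact h13.pow_left m

/-- the elements outside the centraliser of `P` commute with no nontrivial element of `P` -/
theorem cent_of_comm [Finite G] {ℓ : ℕ} [hℓ : Fact ℓ.Prime] {P : Subgroup G} (hP : TiS ℓ P)
    (hcyc : IsCyclic P) {g x : G} (hx : x ∈ P) (hx1 : x ≠ 1) (hgx : g * x * g⁻¹ = x) :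
    g ∈ Subgroup.centralizer (P : Set G) := by
  have hgN : g ∈ Subgroup.normalizer (P : Set G) := by
    by_contra h
    exact hx1 (hP.ti g h x hx (by rw [hgx]; exact hx))
  obtain ⟨y, hy⟩ := hcyc.exists_generator
  obtain ⟨i, hi⟩ := Subgroup.mem_zpowers_iff.1 (hy ⟨x, hx⟩)
  have hi' : (y : G) ^ i = x := by
    have := congrArg (fun z : P => (z : G)) hi
    simpa using this
  obtain ⟨e, he⟩ := (IsPGroup.iff_orderOf.1 hP.pgrp) y
  have hyo : orderOf (y : G) = ℓ ^ e := by rw [Subgroup.orderOf_coe, he]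
  -- it is enough to commute with `y`
  have key : Commute g (y : G) → g ∈ Subgroup.centralizer (P : Set G) := by
    intro hc
    rw [Subgroup.mem_centralizer_iff]
    intro z hz
    obtain ⟨j, hj⟩ := Subgroup.mem_zpowers_iff.1 (hy ⟨z, hz⟩)
    have hj' : (y : G) ^ j = z := by
      have := congrArg (fun z : P => (z : G)) hj
      simpa using this
    rw [← hj']
    exact (hc.zpow_right j).eq.symm
  apply key
  have hnorm : ∀ h : G, h ∈ Subgroup.normalizer (P : Set G) → ∃ a : ℤ,
      h * (y : G) * h⁻¹ = (y : G) ^ a := by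
    intro h hh
    have h1 : h * (y : G) * h⁻¹ ∈ P := (Subgroup.mem_normalizer_iff.1 hh y).1 y.2
    obtain ⟨a, ha⟩ := Subgroup.mem_zpowers_iff.1 (hy ⟨_, h1⟩)
    refine ⟨a, ?_⟩
    have := congrArg (fun z : P => (z : G)) ha
    simpa using this.symm
  obtain ⟨s, m, hm, ho⟩ := Nat.exists_eq_pow_mul_and_not_dvd (orderOf_pos g).ne' ℓ hℓ.out.ne_one
  have hm0 : m ≠ 0 := by
    rintro rfl
    exact hm (dvd_zero ℓ)
  -- the `ℓ'`-part
  have c1 : Commute (g ^ ℓ ^ s) (y : G) := by
    have hN : g ^ ℓ ^ s ∈ Subgroup.normalizer (P : Set G) := Subgroup.pow_mem _ hgN _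
    obtain ⟨a, ha⟩ := hnorm _ hN
    refine comm_of_coprime hℓ.out hyo ha (i := i) (by rw [hi']; exact hx1) ?_ ?_
    · rw [hi']
      have h2 : Commute g x := mul_inv_eq_iff_eq_mul.1 hgx
      exact mul_inv_eq_iff_eq_mul.2 (h2.pow_left _).eq
    · have h3 : orderOf (g ^ ℓ ^ s) = m := by
        rw [orderOf_pow_of_dvd (pow_ne_zero s hℓ.out.ne_zero) ⟨m, ho⟩, ho,
          Nat.mul_div_cancel_left _ (pow_pos hℓ.out.pos s)]
      rw [h3]
      exact (Nat.Prime.coprime_iff_not_dvd hℓ.out).2 hm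
  -- the `ℓ`-part
  have c2 : Commute (g ^ m) (y : G) := by
    have hN : g ^ m ∈ Subgroup.normalizer (P : Set G) := Subgroup.pow_mem _ hgN _
    have ho2 : orderOf (g ^ m) = ℓ ^ s := by
      rw [orderOf_pow_of_dvd hm0 ⟨ℓ ^ s, by rw [ho, mul_comm]⟩, ho,
        Nat.mul_div_cancel _ (Nat.pos_of_ne_zero hm0)]
    have hZ : IsPGroup ℓ (Subgroup.zpowers (g ^ m)) := by
      apply IsPGroup.of_card (n := s)
      rw [Nat.card_zpowers, ho2]
    have h4 := hZ.inf_normalizer_sylow (hP.pgrp.toSylow hP.sylow)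
    have h5 : g ^ m ∈ Subgroup.zpowers (g ^ m) ⊓ ((hP.pgrp.toSylow hP.sylow : Sylow ℓ G) :
        Subgroup G) := by
      rw [← h4]
      exact ⟨Subgroup.mem_zpowers _, hN⟩
    have h6 : g ^ m ∈ P := h5.2
    obtain ⟨j, hj⟩ := Subgroup.mem_zpowers_iff.1 (hy ⟨_, h6⟩)
    have hj' : (y : G) ^ j = g ^ m := by
      have := congrArg (fun z : P => (z : G)) hj
      simpa using this
    rw [← hj']
    exact (Commute.refl (y : G)).zpow_left j
  have hco : (ℓ ^ s).Coprime m :=
    Nat.Coprime.pow_left s ((Nat.Prime.coprime_iff_not_dvd hℓ.out).2 hm)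
  have hb := Nat.gcd_eq_gcd_ab (ℓ ^ s) m
  rw [hco.gcd_eq_one] at hb
  have hg : g = (g ^ ℓ ^ s) ^ Nat.gcdA (ℓ ^ s) m * (g ^ m) ^ Nat.gcdB (ℓ ^ s) m := by
    rw [← zpow_natCast, ← zpow_natCast g m, ← zpow_mul, ← zpow_mul, ← zpow_add, ← hb]
    simp
  rw [hg]
  exact (c1.zpow_left _).mul_left (c2.zpow_left _)

end grp

section sums

variable {F : Type} [Field F] {G : Type} [Group G] {V : Type} [AddCommGroup V] [Module F V]

open scoped Classical in
/-- sums over regular orbits -/
theorem orb_sum (P : Subgroup G) [Fintype P] (S : Submodule F V) (f : G → V) (X : Finset G)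
    (hX : ∀ g ∈ X, ∀ p ∈ P, p * g * p⁻¹ ∈ X) (hfree : ∀ g ∈ X, ∀ p ∈ P, p * g * p⁻¹ = g → p = 1)
    (hsum : ∀ g ∈ X, ∑ p : P, f (p * g * (p : G)⁻¹) ∈ S) : ∑ g ∈ X, f g ∈ S := by
  induction hn : X.card using Nat.strong_induction_on generalizing X with
  | _ N ih =>
    rcases X.eq_empty_or_nonempty with rfl | ⟨g, hg⟩
    · simp
    · obtain ⟨O, hO⟩ : ∃ O : Finset G, O = Finset.univ.image fun p : P => p * g * (p : G)⁻¹ :=
        ⟨_, rfl⟩
      have hOX : O ⊆ X := by
        intro z hz
        rw [hO, Finset.mem_image] at hz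
        obtain ⟨p, -, rfl⟩ := hz
        exact hX g hg p p.2
      have hgO : g ∈ O := by
        rw [hO, Finset.mem_image]
        exact ⟨1, Finset.mem_univ _, by simp⟩
      have hOs : ∑ z ∈ O, f z ∈ S := by
        rw [hO, Finset.sum_image]
        · exact hsum g hg
        · intro p _ q _ hpq
          have h1 : ((q⁻¹ * p : P) : G) * g * ((q⁻¹ * p : P) : G)⁻¹ = g := by
            have h2 : (p : G) * g * (p : G)⁻¹ = q * g * (q : G)⁻¹ := hpq
            calc ((q⁻¹ * p : P) : G) * g * ((q⁻¹ * p : P) : G)⁻¹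
                = (q : G)⁻¹ * (p * g * (p : G)⁻¹) * q := by
                  push_cast
                  group
              _ = g := by
                  rw [h2]
                  group
          have h3 := hfree g hg _ (q⁻¹ * p : P).2 h1
          have h4 : (q⁻¹ * p : P) = 1 := Subtype.ext h3
          exact (inv_mul_eq_one.1 h4).symm
      have hlt : (X \ O).card < N := by
        rw [← hn]
        exact Finset.card_lt_card (Finset.sdiff_ssubset hOX ⟨g, hgO⟩)
      have hrest : ∑ z ∈ X \ O, f z ∈ S := by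
        refine ih _ hlt (X \ O) (fun z hz p hp => ?_)
          (fun z hz => hfree z (Finset.mem_sdiff.1 hz).1)
          (fun z hz => hsum z (Finset.mem_sdiff.1 hz).1) rfl
        obtain ⟨hz1, hz2⟩ := Finset.mem_sdiff.1 hz
        refine Finset.mem_sdiff.2 ⟨hX z hz1 p hp, fun h => hz2 ?_⟩
        rw [hO, Finset.mem_image] at h ⊢
        obtain ⟨q, -, hq⟩ := h
        refine ⟨⟨p, hp⟩⁻¹ * q, Finset.mem_univ _, ?_⟩
        push_cast
        have h5 : (q : G) * g * (q : G)⁻¹ = p * z * p⁻¹ := hq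
        calc p⁻¹ * (q : G) * g * (p⁻¹ * (q : G))⁻¹ = p⁻¹ * ((q : G) * g * (q : G)⁻¹) * p := by group
          _ = z := by rw [h5]; group
      rw [← Finset.sum_sdiff hOX]
      exact S.add_mem hrest hOs

theorem mrep_apply {n : ℕ} (σ : G →* Matrix (Fin n) (Fin n) F) (g : G) (v : Fin n → F) :
    mrep σ g v = (σ g).mulVec v := rfl

end sums

theorem ebr (hnls : NlsStmt) : EbrStmt := by
  classical
  intro ℓ hℓ F _ hF G _ _ P hP hcyc n σ hσ m κ ι hκ hE a c ha hac
  have := Fintype.ofFinite G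
  have := Fintype.ofFinite P
  have := Fintype.ofFinite (Subgroup.normalizer (P : Set G))
  obtain ⟨w, hw⟩ := hE.nt
  obtain ⟨N, hN⟩ : ∃ N, N = Subgroup.normalizer (P : Set G) := ⟨_, rfl⟩
  have hCN : Subgroup.centralizer (P : Set G) ≤ Subgroup.normalizer (P : Set G) := by
    intro g hg
    rw [Subgroup.mem_normalizer_iff]
    rw [Subgroup.mem_centralizer_iff] at hg
    intro h
    constructor
    · intro hh
      rw [← hg h hh, mul_assoc, mul_inv_cancel, mul_one]
      exact hh
    · intro hh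
      have h1 := hg _ hh
      have h2 : h = g * h * g⁻¹ := by
        have h3 : g * h * g⁻¹ * g = g * (g * h * g⁻¹) := h1
        have h4 : g * h = g * (g * h * g⁻¹) := by rw [← h3]; group
        exact mul_left_cancel h4
      rw [h2]
      exact hh
  -- `P` acts trivially on `κ`
  have hPN : (P.subgroupOf (Subgroup.normalizer (P : Set G))).Normal :=
    ⟨fun x hx g => (Subgroup.mem_normalizer_iff.1 g.2 x).1 hx⟩
  have hPp : IsPGroup ℓ (P.subgroupOf (Subgroup.normalizer (P : Set G))) := by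
    intro x
    obtain ⟨k, hk⟩ := hP.pgrp ⟨((x : Subgroup.normalizer (P : Set G)) : G), x.2⟩
    refine ⟨k, ?_⟩
    have h4 := congrArg (fun z : P => (z : G)) hk
    exact Subtype.ext (Subtype.ext h4)
  have htriv := (hnls ℓ F hF _ _ hPN hPp m κ hκ).1
  have hfix : ∀ p : P, (σ p).mulVec (ι w) = ι w := by
    intro p
    have h1 := hE.int ⟨p, Subgroup.le_normalizer p.2⟩ w
    rw [htriv _ (show (⟨(p : G), Subgroup.le_normalizer p.2⟩ :
      Subgroup.normalizer (P : Set G)) ∈ P.subgroupOf _ from p.2), Matrix.one_mulVec] at h1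
    exact h1.symm
  -- the Brauer image acts as a scalar
  have hbcl : IsCl (fun t : Subgroup.normalizer (P : Set G) => br P a t) := by
    intro x y
    have h1 : ((y * x * y⁻¹ : Subgroup.normalizer (P : Set G)) : G) ∈
        Subgroup.centralizer (P : Set G) ↔ (x : G) ∈ Subgroup.centralizer (P : Set G) := by
      have hcen : ∀ (s : G), s ∈ Subgroup.normalizer (P : Set G) → ∀ t : G,
          t ∈ Subgroup.centralizer (P : Set G) →
          s * t * s⁻¹ ∈ Subgroup.centralizer (P : Set G) := by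
        intro s hs t ht
        rw [Subgroup.mem_centralizer_iff] at ht ⊢
        intro z hz
        have h2 : s⁻¹ * z * s ∈ P := by
          have h3 := (Subgroup.mem_normalizer_iff.1 (Subgroup.inv_mem _ hs) z).1 hz
          simpa using h3
        have h4 := ht _ h2
        calc z * (s * t * s⁻¹) = s * (s⁻¹ * z * s * t) * s⁻¹ := by group
          _ = s * (t * (s⁻¹ * z * s)) * s⁻¹ := by rw [h4]
          _ = s * t * s⁻¹ * z := by group
      constructor
      · intro h
        have h2 := hcen _ (Subgroup.inv_mem _ y.2) _ h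
        have h3 : (y : G)⁻¹ * ((y * x * y⁻¹ : Subgroup.normalizer (P : Set G)) : G) *
            ((y : G)⁻¹)⁻¹ = x := by
          push_cast
          group
        rwa [h3] at h2
      · intro h
        exact hcen _ y.2 _ h
    have h5 : a ((y * x * y⁻¹ : Subgroup.normalizer (P : Set G)) : G) = a x := by
      push_cast
      exact ha x y
    simp only [br, h1, h5]
  obtain ⟨b, hb, -, -⟩ := H20.eig F _ m κ hκ _ hbcl
  rw [hb]
  -- the two parts of the sum
  have hsum : (ev σ a).mulVec (ι w) = ∑ g : G, a g • (σ g).mulVec (ι w) := by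
    rw [ev, finsum_eq_sum_of_fintype, Matrix.sum_mulVec]
    exact Finset.sum_congr rfl fun g _ => by rw [Matrix.smul_mulVec]
  have hC : ι ((ev κ (fun t : Subgroup.normalizer (P : Set G) => br P a t)).mulVec w) =
      ∑ g : G, if g ∈ Subgroup.centralizer (P : Set G) then a g • (σ g).mulVec (ι w) else 0 := by
    rw [ev, finsum_eq_sum_of_fintype, Matrix.sum_mulVec, map_sum]
    have h1 : ∀ t : Subgroup.normalizer (P : Set G),
        ι ((br P a t • κ t).mulVec w) = br P a t • (σ t).mulVec (ι w) := by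
      intro t
      rw [Matrix.smul_mulVec, map_smul, hE.int]
      rfl
    rw [Finset.sum_congr rfl fun t _ => h1 t]
    have h2 : ∀ g : G, (if g ∈ Subgroup.centralizer (P : Set G) then a g • (σ g).mulVec (ι w)
        else 0) = br P a g • (σ g).mulVec (ι w) := by
      intro g
      unfold br
      split_ifs
      · rfl
      · rw [zero_smul]
    rw [Finset.sum_congr rfl fun g _ => h2 g]
    have h3 : ∑ g : G, br P a g • (σ g).mulVec (ι w) =
        ∑ g ∈ Finset.univ.filter (fun g => g ∈ Subgroup.normalizer (P : Set G)),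
          br P a g • (σ g).mulVec (ι w) := by
      symm
      apply Finset.sum_subset (Finset.filter_subset _ _)
      intro g _ hg
      have h4 : g ∉ Subgroup.normalizer (P : Set G) := by
        intro h
        exact hg (Finset.mem_filter.2 ⟨Finset.mem_univ _, h⟩)
      have h5 : br P a g = 0 := by
        unfold br
        rw [if_neg fun h => h4 (hCN h)]
      rw [h5, zero_smul]
    rw [h3]
    symm
    exact Finset.sum_subtype _ (fun g => by simp) _
  have hrest : (∑ g : G, a g • (σ g).mulVec (ι w)) -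
      (∑ g : G, if g ∈ Subgroup.centralizer (P : Set G) then a g • (σ g).mulVec (ι w) else 0) ∈
      nrmV (mrep σ) P := by
    rw [← Finset.sum_sub_distrib]
    have h1 : ∀ g : G, (a g • (σ g).mulVec (ι w) - if g ∈ Subgroup.centralizer (P : Set G) then
        a g • (σ g).mulVec (ι w) else 0) = if g ∉ Subgroup.centralizer (P : Set G) then
        a g • (σ g).mulVec (ι w) else 0 := by
      intro g
      by_cases h : g ∈ Subgroup.centralizer (P : Set G)
      · rw [if_pos h, if_neg (not_not.2 h), sub_self]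
      · rw [if_neg h, if_pos h, sub_zero]
    rw [Finset.sum_congr rfl fun g _ => h1 g, ← Finset.sum_filter]
    apply orb_sum P
    · intro g hg p hp
      rw [Finset.mem_filter] at hg ⊢
      refine ⟨Finset.mem_univ _, fun h => hg.2 ?_⟩
      rw [Subgroup.mem_centralizer_iff] at h ⊢
      intro z hz
      have hz2 : p * z * p⁻¹ ∈ P := P.mul_mem (P.mul_mem hp hz) (P.inv_mem hp)
      have h2 := h _ hz2
      have h3 : p * (z * g) * p⁻¹ = p * (g * z) * p⁻¹ := by
        calc p * (z * g) * p⁻¹ = p * z * p⁻¹ * (p * g * p⁻¹) := by group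
          _ = p * g * p⁻¹ * (p * z * p⁻¹) := h2
          _ = p * (g * z) * p⁻¹ := by group
      exact mul_left_cancel (mul_right_cancel h3)
    · intro g hg p hp hpg
      rw [Finset.mem_filter] at hg
      by_contra hp1
      apply hg.2
      refine cent_of_comm hP hcyc hp hp1 ?_
      have h2 : p * g = g * p := mul_inv_eq_iff_eq_mul.1 hpg
      exact mul_inv_eq_iff_eq_mul.2 h2.symm
    · intro g _
      refine ⟨a g • (σ g).mulVec (ι w), ?_⟩
      rw [finsum_eq_sum_of_fintype, LinearMap.sum_apply]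
      apply Finset.sum_congr rfl
      intro p _
      rw [ha g p, map_mul, map_mul, ← Matrix.mulVec_mulVec, ← Matrix.mulVec_mulVec]
      have h2 : (σ (p : G)⁻¹).mulVec (ι w) = ι w := by
        have h3 := hfix p⁻¹
        simpa using h3
      rw [h2, mrep_apply, Matrix.mulVec_smul]
  rw [← hsum, ← hC, hac, hb] at hrest
  have hsc : ∀ (k : ℕ) (d : F) (v : Fin k → F), (Matrix.scalar (Fin k) d).mulVec v = d • v := by
    intro k d v
    rw [Matrix.scalar_apply, ← Matrix.smul_one_eq_diagonal, Matrix.smul_mulVec, Matrix.one_mulVec]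
  rw [hsc, hsc, map_smul, ← sub_smul] at hrest
  have hcb : c - b = 0 := by
    by_contra h
    apply hw
    have h2 := (nrmV (mrep σ) P).smul_mem (c - b)⁻¹ hrest
    rwa [smul_smul, inv_mul_cancel₀ h, one_smul] at h2
  rw [sub_eq_zero.1 hcb]

end Pool.Agent.PP.CY.H5
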